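import Mathlib

set_option autoImplicit false

namespace Pool.Agent.Results.MP_914aa3_co.Counter

/-- rows reached when the stone at i jumps in direction d over the other stones B, once or more -/
def jumps (d : ℤ) : ℕ → ℤ → List ℤ → List (List ℤ)
  | 0, _, _ => []
  | f + 1, i, B =>
    if i + d ∈ B ∧ i + 2 * d ∉ B then
      ((i + 2 * d) :: B.erase (i + d)) :: jumps d f (i + 2 * d) (B.erase (i + d))
    else []

/-- moves in one row (the list of occupied cells); p is true for Black, who owns even cells -/
def rowMoves (p : Bool) (A : List ℤ) : List (List ℤ) :=
  A.flatMap fun i => if decide (i % 2 = 0) = p then
    jumps 1 A.length i (A.erase i) ++ jumps (-1) A.length i (A.erase i) else []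

/-- moves in a disjoint sum of rows -/
def moves (p : Bool) : List (List ℤ) → List (List (List ℤ))
  | [] => []
  | A :: s => (rowMoves p A).map (· :: s) ++ (moves p s).map (A :: ·)

/-- normal play with a bound on the number of moves: the player p to move wins -/
def win : ℕ → Bool → List (List ℤ) → Bool
  | 0, _, _ => false
  | f + 1, p, s => (moves p s).any fun t => !win f (!p) t

/-- the player p, moving first, wins; every move removes a stone -/
def Wins (p : Bool) (s : List (List ℤ)) : Prop := win s.flatten.length p s = true

/-- equal values: G minus H is a second player win; a shift by one cell swaps the colours -/
def SameValue (G H : List (List ℤ)) : Prop :=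
  ∀ p, ¬ Wins p (G ++ H.map fun A => A.map (· + 1))

/-- a solid run of n stones starting in cell a -/
def run (a n : ℕ) : List ℤ := (List.range n).map fun t => ((a + t : ℕ) : ℤ)

/-- the three-run position equals the sum of its first two runs and its third run -/
def Decomposes (k m n : ℕ) : Prop :=
  SameValue [run 1 k ++ run (k + 2) m ++ run (k + m + 4) n]
    [run 1 k ++ run (k + 2) m, run (k + m + 4) n]

def chk : ℕ → Bool → List (List ℤ) → ℕ → Option ℕ
  | f + 2, p, s, c =>
    match (moves p s)[c % 16]? with
    | none => none
    | some t => (moves (!p) t).foldl (fun o u => o.bind (chk f p u)) (some (c / 16))
  | _, _, _, _ => none

lemma fold_ok {α : Type} (g : α → ℕ → Option ℕ) (l : List α) (o : Option ℕ)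
    (h : (l.foldl (fun o u => o.bind (g u)) o).isSome) :
    o.isSome ∧ ∀ u ∈ l, ∃ c, (g u c).isSome := by
  induction l generalizing o with
  | nil => exact ⟨h, by simp⟩
  | cons a l ih =>
    obtain ⟨h1, h2⟩ := ih _ h
    cases o with
    | none => simp at h1
    | some c =>
      refine ⟨rfl, fun u hu => ?_⟩
      rcases List.mem_cons.1 hu with rfl | hu
      exacts [⟨c, h1⟩, h2 u hu]

lemma chk_ok : ∀ (f : ℕ) (p : Bool) (s : List (List ℤ)) (c : ℕ), (chk f p s c).isSome →
    win f p s = true
  | 0, _, _, _, h => by simp [chk] at h
  | 1, _, _, _, h => by simp [chk] at h
  | f + 2, p, s, c, h => by
    rw [chk] at h
    split at h
    · simp at h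
    · rename_i t ht
      rw [win, List.any_eq_true]
      refine ⟨t, List.mem_of_getElem? ht, ?_⟩
      rw [win, Bool.not_eq_true', List.any_eq_false]
      intro u hu
      obtain ⟨c', hc'⟩ := (fold_ok _ _ _ h).2 u hu
      simp [chk_ok f p u c' hc']

def cert : ℕ := 179783242440055000509648877526020797321822069439005137312292665427664674528206564208062825140370857583309778749859595681490540698525522482330383978845871698583312444052408567684964169498500211550827146687515334428030452567638678863875712351735139526063278508623670618150329958441990553769625227317180446453093442650296163447772881638224411196203975544911700670341854700960680211858731470469059505885648021673329173155781637309624336703604135936827038981777926013266030534765298537247503252925747266634458704859871303257987814704673232081307942995181130629460422665373727431928186750448229463713295343698936378520205091949535831087299232301450301846581254086527434243188590870550113460102309971695803757248561995970741431744665518791939196119158370241136906980105550054980256107031817549349954871143894379225037653133269122223328842681260825735245867576456924149916924499648644376279765185506821553405346049967893465509012982515809006180812256724589807605708336581316848957998827420871028408880228252117549936193969078487385360774151609346987077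0217824705997788629648430803837759956718992585159481931997652952277580590669052618362001130874753730931449995788176717296497735827607037698485082148529286163255115084632803928329545976710717211239035056843620242162790777970677979327885605112437025276038963885645281772109878529931131116759225570306691708135072222121284793072258076685483604787014852814226201964435584352214556689871274452494136504203848981376981033993529249062141027529104323756727875084187785714877082901673530516827670429968325682327727763091678001915613216291724363075990167560081571419544339390729593966102906839228622189984725251451775696109516247604768425007082801731952238801602413737440126516707964153889562687833817671956677529249356891762988786008938500802927733883960656196190988248165797875581146112792119060887859169104427722653432105035486804614635512815516011981075043662165454176871010406077706020689231000859293240512911843588191945109165613863257746899595989652997773762287479092064532959269708353545470989833307769256398208936324393230882772184539060362604506131370161416484913661630475654435174245230925423295152952779336471918990732871503592834917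

theorem result : ¬ Decomposes 3 4 6 ∧ ¬ Decomposes 1 2 2 := by
  refine ⟨fun h => h false (chk_ok 26 _ _ cert (by decide +kernel)), fun h => h true ?_⟩
  unfold Wins
  decide +kernel

end Pool.Agent.Results.MP_914aa3_co.Counter
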